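import Pool.Agent.R11.MixE

/-!
# Mixed metric dimension of 2-connected graphs

Every 2-connected graph `G` which is not a cycle satisfies `mdim(G) ≤ 2 c(G)`, where
`c(G) = |E(G)| - |V(G)| + 1`.

Proof idea.  Take a breadth first search tree from a vertex `r` of degree at least three and let `W`
be the set of all ends of non-tree edges.  Then `W ∪ {r}` is a mixed resolving set.  If two non-tree
edges share an end, it has at most `2 c(G)` members.  Otherwise the vertex `w` farthest from `r` has
degree two and lies inside a thread (a maximal path with interior vertices of degree two) whose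
middle contains a non-tree edge; the two ends of this non-tree edge can be replaced by one vertex
in the middle of the thread.
-/

set_option autoImplicit false

namespace Pool.Agent.Results.MP_ca4ce9_co.MixedDimBound

open SimpleGraph

/-- The distance from a vertex `w` to a vertex or an edge of `G`: for a vertex `x` it is
`d(w, x)`, for an edge `uv` it is `min (d(w, u)) (d(w, v))`. -/
noncomputable def elemDist {V : Type*} (G : SimpleGraph V) (w : V) : V ⊕ G.edgeSet → ℕ
  | Sum.inl x => G.dist w x
  | Sum.inr e => Sym2.lift ⟨fun u v => min (G.dist w u) (G.dist w v),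
      fun _ _ => min_comm _ _⟩ (e : Sym2 V)

/-- `S` is a mixed resolving set: any two different elements of `V(G) ∪ E(G)` have different
distances to some member of `S`. -/
def IsMixedResolving {V : Type*} (G : SimpleGraph V) (S : Finset V) : Prop :=
  ∀ x y : V ⊕ G.edgeSet, x ≠ y → ∃ s ∈ S, elemDist G s x ≠ elemDist G s y

/-- The mixed metric dimension: the smallest size of a mixed resolving set. -/
noncomputable def mdim {V : Type*} (G : SimpleGraph V) : ℕ :=
  sInf {k : ℕ | ∃ S : Finset V, S.card = k ∧ IsMixedResolving G S}

/-- Every 2-connected graph (at least three vertices, connected, and still connected after the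
removal of any one vertex) which is not a cycle has a mixed resolving set of size at most
`2 c(G)`, `c(G) = |E| - |V| + 1`; so its mixed metric dimension is at most `2 c(G)`. -/
theorem result (V : Type*) [Fintype V] [DecidableEq V] (G : SimpleGraph V) [DecidableRel G.Adj]
    (hV : 3 ≤ Fintype.card V) (hconn : G.Connected)
    (hcut : ∀ v : V, (G.induce ({v}ᶜ : Set V)).Connected)
    (hcycle : ∀ n : ℕ, IsEmpty (G ≃g cycleGraph n)) :
    (∃ S : Finset V, IsMixedResolving G S ∧
      (S.card : ℤ) ≤ 2 * ((G.edgeFinset.card : ℤ) - (Fintype.card V : ℤ) + 1)) ∧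
    (mdim G : ℤ) ≤ 2 * ((G.edgeFinset.card : ℤ) - (Fintype.card V : ℤ) + 1) := by
  obtain ⟨S, hS, hcard⟩ := Pool.Agent.R11.Mix.main hV hconn hcut hcycle
  have he : ∀ (s : V) (x : V ⊕ G.edgeSet),
      elemDist G s x = Pool.Agent.R11.Mix.elemDist G s x := by
    rintro s (x | e) <;> rfl
  have hS' : IsMixedResolving G S := by
    intro x y hxy
    obtain ⟨s, hs, h⟩ := hS x y hxy
    exact ⟨s, hs, by rwa [he, he]⟩
  have hle : (S.card : ℤ) ≤ 2 * ((G.edgeFinset.card : ℤ) - (Fintype.card V : ℤ) + 1) := by
    omega
  refine ⟨⟨S, hS', hle⟩, ?_⟩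
  have h1 : mdim G ≤ S.card := Nat.sInf_le ⟨S, rfl, hS'⟩
  omega

end Pool.Agent.Results.MP_ca4ce9_co.MixedDimBound
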